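import Pool.Agent.Helper69.LT.St
import Pool.Agent.Helper84.LE.M_Qw

/-!
# LT module Final: the final statement from the limit equations, the linear algebra and the
environment on the lattice
-/

set_option autoImplicit false

open scoped BigOperators ENNReal
open Pool.LE Pool.NL

namespace Pool.LT

namespace FinalM

/-- a bound for a series gives a bound for the finite sums -/
theorem fin_of_tsum {V : Type} (L : Finset V) (q f : V → ℝ) (c : ℝ) (hq : ∀ x, 0 ≤ q x)
    (hc : 0 ≤ c)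
    (h : ∑' x : V, ENNReal.ofReal (q x) * ENNReal.ofReal |f x| ≤ ENNReal.ofReal c) :
    ∑ x ∈ L, q x * |f x| ≤ c := by
  have h1 : ENNReal.ofReal (∑ x ∈ L, q x * |f x|) ≤ ENNReal.ofReal c := by
    rw [ENNReal.ofReal_sum_of_nonneg (fun x _ => mul_nonneg (hq x) (abs_nonneg _))]
    refine le_trans ?_ h
    refine le_trans (le_of_eq ?_) (ENNReal.sum_le_tsum L)
    exact Finset.sum_congr rfl fun x _ => ENNReal.ofReal_mul (hq x)
  exact (ENNReal.ofReal_le_ofReal_iff hc).1 h1

/-- the dimension is large -/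
theorem large_d {B : ℝ} (hB : 1 ≤ B) {d : ℕ} (hd : (8000 * B ^ 5) ^ 2 ≤ (d : ℝ)) :
    40 * 22 * B * (B / Real.sqrt d) ≤ 1 / 2 ∧ 1000 * B ^ 4 * (B / Real.sqrt d) ≤ 1 / 8 := by
  have hB0 : 0 < B := by linarith
  have hs : 8000 * B ^ 5 ≤ Real.sqrt d := by
    apply Real.le_sqrt_of_sq_le
    exact hd
  have hB5 : 0 < 8000 * B ^ 5 := by positivity
  have hs0 : 0 < Real.sqrt d := lt_of_lt_of_le hB5 hs
  have hB25 : B ^ 2 ≤ B ^ 5 := pow_le_pow_right₀ hB (by norm_num)
  constructor
  · have h1 : 40 * 22 * B * (B / Real.sqrt d) = 880 * B ^ 2 / Real.sqrt d := by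
      field_simp
      ring
    rw [h1, div_le_iff₀ hs0]
    nlinarith
  · have h1 : 1000 * B ^ 4 * (B / Real.sqrt d) = 1000 * B ^ 5 / Real.sqrt d := by
      field_simp
    rw [h1, div_le_iff₀ hs0]
    linarith

theorem ofReal_nat_mul (n : ℕ) (a : ℝ) : (n : ENNReal) * ENNReal.ofReal a =
    ENNReal.ofReal ((n : ℝ) * a) := by
  rw [ENNReal.ofReal_mul (Nat.cast_nonneg n), ENNReal.ofReal_natCast]

theorem Qw_zero {d : ℕ} : Qw (0 : Zd d) = 2 := by
  unfold Qw Pool.LE.sq
  simp

end FinalM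

open FinalM in
theorem hFinal : SProd → SLim → SAlg → SEnvL → StLT := by
  intro _ hLim hAlg hEnv
  obtain ⟨B, hB, d₁, hd₁, hEnv⟩ := hEnv
  have hB0 : 0 < B := by linarith
  refine ⟨max d₁ ⌈(8000 * B ^ 5) ^ 2⌉₊, le_trans hd₁ (le_max_left _ _), ?_⟩
  intro d hd
  have hdd : d₁ ≤ d := le_trans (le_max_left _ _) hd
  have hd2 : (8000 * B ^ 5) ^ 2 ≤ (d : ℝ) :=
    le_trans (Nat.le_ceil _) (by exact_mod_cast le_trans (le_max_right _ _) hd)
  obtain ⟨hl1, hl2⟩ := large_d hB hd2
  have hs0 : 0 ≤ B / Real.sqrt d := div_nonneg hB0.le (Real.sqrt_nonneg _)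
  set C₀ : ℝ := 1760 * (2 * d : ℕ) * B ^ 3 with hC₀
  set C₁ : ℝ := 440 * B ^ 3 + 1760 * (2 * d : ℕ) * B ^ 3 with hC₁
  have hC₀0 : 0 ≤ C₀ := by positivity
  have hC₁0 : 0 ≤ C₁ := by positivity
  refine ⟨1 + 3 * (2 + C₀) + 3 * (C₁ * (3 * (2 + C₀)) + C₁), by nlinarith [mul_nonneg hC₁0 hC₀0], ?_⟩
  intro L E ρ k η hE hEL hρ hη heta h78
  obtain ⟨T, K, henv⟩ := hEnv d hdd L E k η hE hEL hη heta
  obtain ⟨hQ2, hQm, hQn, hQ4⟩ := hQw d
  have hB1 : (1 : ENNReal) ≤ ENNReal.ofReal B := by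
    rw [← ENNReal.ofReal_one]
    exact ENNReal.ofReal_le_ofReal hB
  have h880 : 40 * 22 * ENNReal.ofReal B * ENNReal.ofReal (B / Real.sqrt d) ≤ 1 / 2 := by
    have e1 : (40 : ENNReal) * 22 * ENNReal.ofReal B * ENNReal.ofReal (B / Real.sqrt d) =
        ENNReal.ofReal (40 * 22 * B * (B / Real.sqrt d)) := by
      rw [ENNReal.ofReal_mul (by positivity), ENNReal.ofReal_mul (by positivity),
        ENNReal.ofReal_mul (by positivity)]
      norm_num
    have e2 : (1 / 2 : ENNReal) = ENNReal.ofReal (1 / 2) := by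
      rw [ENNReal.ofReal_div_of_pos (by norm_num)]
      norm_num
    rw [e1, e2]
    exact ENNReal.ofReal_le_ofReal hl1
  obtain ⟨g₀, g₁, P₀, P₁, hG0, hG1, hb0, hb1, hb2, hb3⟩ := hLim (Zd d) L ρ k E (pH d) T K
    (fun x y => ENNReal.ofReal (Qw (y - x))) nb (ENNReal.ofReal B)
    (ENNReal.ofReal (B / Real.sqrt d)) (ENNReal.ofReal η) (2 * d) henv hρ hEL hB1
    ENNReal.ofReal_ne_top (fun _ _ => ENNReal.ofReal_ne_top) ENNReal.ofReal_ne_top h880
  have hQ0 : ∀ x : Zd d, 0 ≤ Qw x := fun x => le_trans (by norm_num) (hQ2 x)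
  obtain ⟨H, S, hHS0, hHG, hGH, hGSG, hHb, hSb⟩ := hAlg (Zd d) L (fun x y => Qw (y - x))
    (G0 E (pH d) L ρ) (G1 E (pH d) L ρ k) g₀ g₁ P₀ P₁ 2 C₀ C₁ η
    (fun x y => le_trans (by norm_num) (hQ2 (y - x)))
    (fun x y z => by
      have := hQm (y - x) (z - y)
      have e : y - x + (z - y) = z - x := by abel
      rw [e] at this
      exact this)
    (fun x => by
      show Qw (x - x) ≤ 2
      rw [sub_self, Qw_zero])
    hC₀0 hC₁0 hη (fun v _ x _ => hG0 v x) (fun v _ x _ => hG1 v x)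
    (fun v hv => by
      refine fin_of_tsum L (fun x => Qw (x - v)) (fun x => g₀ v x - if x = v then 1 else 0)
        (1 / 2) (fun x => hQ0 _) (by norm_num) (le_trans (hb0 v) ?_)
      have e1 : ENNReal.ofReal (Qw (v - v)) *
          ENNReal.ofReal (1 - ex E (pH d) (fun ω => pw L ρ ω v)) ≤ ENNReal.ofReal (1 / 4) := by
        rw [← ENNReal.ofReal_mul (hQ0 _), sub_self, Qw_zero]
        refine ENNReal.ofReal_le_ofReal ?_
        have := h78 v hv
        linarith
      have e2 : 1000 * ENNReal.ofReal B ^ 4 * ENNReal.ofReal (B / Real.sqrt d) ≤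
          ENNReal.ofReal (1 / 8) := by
        have e3 : 1000 * ENNReal.ofReal B ^ 4 * ENNReal.ofReal (B / Real.sqrt d) =
            ENNReal.ofReal (1000 * B ^ 4 * (B / Real.sqrt d)) := by
          rw [ENNReal.ofReal_mul (by positivity), ENNReal.ofReal_mul (by positivity),
            ENNReal.ofReal_pow hB0.le]
          norm_num
        rw [e3]
        exact ENNReal.ofReal_le_ofReal hl2
      refine le_trans (add_le_add e1 e2) ?_
      rw [← ENNReal.ofReal_add (by norm_num) (by norm_num)]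
      exact ENNReal.ofReal_le_ofReal (by norm_num))
    (fun v _ => by
      have h := fin_of_tsum L (fun x => Qw (x - v)) (fun x => g₁ v x) (440 * B ^ 3 * η)
        (fun x => hQ0 _) (by positivity) (le_trans (hb1 v) (le_of_eq (by
          rw [ENNReal.ofReal_mul (by positivity), ENNReal.ofReal_mul (by positivity),
            ENNReal.ofReal_pow hB0.le]
          norm_num)))
      refine le_trans h ?_
      rw [hC₁]
      have : 0 ≤ 1760 * ((2 * d : ℕ) : ℝ) * B ^ 3 * η := by positivity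
      nlinarith)
    (fun v _ => by
      have h := fin_of_tsum L (fun x => Qw (x - v)) (fun x => P₀ v x) C₀
        (fun x => hQ0 _) hC₀0 (le_trans (hb2 v) (le_of_eq (by
          rw [hC₀, ENNReal.ofReal_mul (by positivity), ENNReal.ofReal_mul (by positivity),
            ENNReal.ofReal_pow hB0.le, ENNReal.ofReal_natCast]
          norm_num)))
      exact h)
    (fun v _ => by
      have h := fin_of_tsum L (fun x => Qw (x - v)) (fun x => P₁ v x)
        (1760 * (2 * d : ℕ) * B ^ 3 * η)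
        (fun x => hQ0 _) (by positivity) (le_trans (hb3 v) (le_of_eq (by
          rw [ENNReal.ofReal_mul (by positivity), ENNReal.ofReal_mul (by positivity),
            ENNReal.ofReal_mul (by positivity), ENNReal.ofReal_pow hB0.le,
            ENNReal.ofReal_natCast]
          norm_num)))
      refine le_trans h ?_
      rw [hC₁]
      have : 0 ≤ 440 * B ^ 3 * η := by positivity
      nlinarith)
  refine ⟨H, S, hHS0, ?_, ?_, hGSG, ?_, ?_⟩
  · intro u hu v hv
    rw [hHG u hu v hv]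
    unfold ind
    by_cases h : u = v
    · rw [if_pos h, if_pos h]
    · rw [if_neg h, if_neg h]
  · intro u hu v hv
    rw [hGH u hu v hv]
    unfold ind
    by_cases h : u = v
    · rw [if_pos h, if_pos h]
    · rw [if_neg h, if_neg h]
  · intro u hu
    refine le_trans (hHb u hu) ?_
    nlinarith [mul_nonneg hC₁0 hC₀0]
  · intro u hu
    refine le_trans (hSb u hu) ?_
    have : (2 + 1) * (C₁ * η * ((2 + 1) * (2 + C₀)) + C₁ * η) =
        3 * (C₁ * (3 * (2 + C₀)) + C₁) * η := by ring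
    rw [this]
    have h2 : 0 ≤ (1 + 3 * (2 + C₀)) * η := by positivity
    nlinarith

end Pool.LT
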